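import Pool.Agent.Q1.LF.Floor
import Pool.Agent.Y19.QT.Defs

set_option autoImplicit false

/-! # The integer parts `⌊α u_k⌋`: from moments over the squarefree integers to almost all `α` -/

namespace Pool.Agent.Q1.LF

open Filter Topology MeasureTheory Set
open scoped ENNReal NNReal
open Pool.Agent.Y19.QT (sqf mem_sqf)

/-- the real numbers `α ≠ 0` such that for infinitely many `k` the integer `d = ⌊α u_k⌋` is squarefree and
`f_d(t) > (|d| ^ N) ^ β (2 + |t|) ^ B` for some real `t` -/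
def Exc (N : ℕ) (f : ℤ → ℝ → ℝ) (u : ℕ → ℝ) (β : ℝ) (B : ℕ) : Set ℝ :=
  {α | α ≠ 0 ∧ ∃ᶠ k in atTop, Squarefree ⌊α * u k⌋ ∧ ∃ t : ℝ,
    (|(⌊α * u k⌋ : ℝ)| ^ N) ^ β * (2 + |t|) ^ B < f ⌊α * u k⌋ t}

theorem one_le_log {X : ℕ} (hX : 3 ≤ X) : 1 ≤ Real.log X := by
  have h3 : (3 : ℝ) ≤ X := by exact_mod_cast hX
  rw [Real.le_log_iff_exp_le (by linarith)]
  exact Real.exp_one_lt_d9.le.trans (by linarith)

/-- the size of `⌊α v⌋` -/
theorem floor_size {α v : ℝ} {m : ℕ} (hm : |α| ≤ m) (hm' : 1 ≤ m * |α|) (hv : 2 * m ≤ v)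
    (hm1 : 1 ≤ m) : |⌊α * v⌋| ≤ ((⌈(m : ℝ) * v⌉₊ + 2 : ℕ) : ℤ) ∧ v / (2 * m) ≤ |(⌊α * v⌋ : ℝ)| := by
  have hm0 : (1 : ℝ) ≤ m := by exact_mod_cast hm1
  have hv0 : 0 < v := by linarith
  have h1 : |α * v| ≤ m * v := by
    rw [abs_mul, abs_of_pos hv0]
    exact mul_le_mul_of_nonneg_right hm hv0.le
  have h2 : |(⌊α * v⌋ : ℝ) - α * v| ≤ 1 := by
    rw [abs_sub_comm, abs_le]
    constructor
    · linarith [Int.floor_le (α * v)]
    · linarith [Int.lt_floor_add_one (α * v)]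
  constructor
  · have h3 : |(⌊α * v⌋ : ℝ)| ≤ m * v + 1 := by
      calc |(⌊α * v⌋ : ℝ)| = |((⌊α * v⌋ : ℝ) - α * v) + α * v| := by ring_nf
        _ ≤ |(⌊α * v⌋ : ℝ) - α * v| + |α * v| := abs_add_le _ _
        _ ≤ m * v + 1 := by linarith
    have h4 : (m : ℝ) * v ≤ ⌈(m : ℝ) * v⌉₊ := Nat.le_ceil _
    have h5 : ((|⌊α * v⌋| : ℤ) : ℝ) ≤ (((⌈(m : ℝ) * v⌉₊ + 2 : ℕ) : ℤ) : ℝ) := by
      push_cast
      linarith
    exact_mod_cast h5
  · have h3 : v / m ≤ |α * v| := by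
      rw [abs_mul, abs_of_pos hv0, div_le_iff₀ (by linarith)]
      nlinarith
    have h4 : |α * v| - 1 ≤ |(⌊α * v⌋ : ℝ)| := by
      have h5 : |α * v| ≤ |(⌊α * v⌋ : ℝ)| + |(⌊α * v⌋ : ℝ) - α * v| := by
        calc |α * v| = |(⌊α * v⌋ : ℝ) - ((⌊α * v⌋ : ℝ) - α * v)| := by ring_nf
          _ ≤ _ := abs_sub _ _
      linarith
    have h5 : v / (2 * m) + 1 ≤ v / m := by
      have h6 : v / m = v / (2 * m) + v / (2 * m) := by
        field_simp
        ring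
      rw [h6]
      have h7 : 1 ≤ v / (2 * m) := by
        rw [one_le_div (by linarith)]
        exact hv
      linarith
    linarith

variable {N : ℕ} {f : ℤ → ℝ → ℝ} {C : ℝ} {A B : ℕ}

/-- the number of exceptional squarefree integers -/
theorem count (hN : 1 ≤ N) (hmom : ∀ (X : ℕ) (t : ℤ → ℝ), 3 ≤ X →
      ∑ d ∈ sqf X, f d (t d) ^ ((2 : ℝ) / N) / (2 + |t d|) ^ B ≤ C * X * Real.log X ^ A)
    (hf : ∀ d t, 0 ≤ f d t) {β θ : ℝ} (hβ : 0 ≤ β) (hθ : 1 - 2 * β < θ) (m : ℕ) (hm : 1 ≤ m) :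
    ∃ C' : ℝ, ∀ (v : ℝ) (Z : Finset ℤ), 1 ≤ v → Z ⊆ sqf (⌈(m : ℝ) * v⌉₊ + 2) →
      (∀ d ∈ Z, v / (2 * m) ≤ |(d : ℝ)| ∧ ∃ t : ℝ, (|(d : ℝ)| ^ N) ^ β * (2 + |t|) ^ (B * N) < f d t) →
      (Z.card : ℝ) ≤ C' * v ^ θ := by
  have hm0 : (1 : ℝ) ≤ m := by exact_mod_cast hm
  have hN0 : (1 : ℝ) ≤ N := by exact_mod_cast hN
  set η : ℝ := θ - (1 - 2 * β) with hη
  have hη0 : 0 < η := by rw [hη]; linarith
  set ε : ℝ := η / (A + 1) with hε
  have hε0 : 0 < ε := by positivity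
  have hεA : ε * A ≤ η := by
    rw [hε, div_mul_eq_mul_div, div_le_iff₀ (by positivity)]
    nlinarith
  refine ⟨|C| * ((m : ℝ) + 3) ^ (1 + η) / ε ^ A * (1 / (2 * m)) ^ (-(2 * β)), fun v Z hv hZ hZ' => ?_⟩
  have hv0 : 0 < v := by linarith
  set X : ℕ := ⌈(m : ℝ) * v⌉₊ + 2 with hX
  have hX3 : 3 ≤ X := by
    have : 1 ≤ ⌈(m : ℝ) * v⌉₊ := Nat.one_le_ceil_iff.2 (by positivity)
    omega
  have hX0 : (1 : ℝ) ≤ X := by exact_mod_cast (by omega : 1 ≤ X)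
  have hXle : (X : ℝ) ≤ ((m : ℝ) + 3) * v := by
    have h1 := (Nat.ceil_lt_add_one (a := (m : ℝ) * v) (by positivity)).le
    rw [hX]
    push_cast
    nlinarith
  have hZ2 : ∀ d ∈ Z, ∃ t : ℝ, (|(d : ℝ)| ^ N) ^ β * (2 + |t|) ^ (B * N) < f d t :=
    fun d hd => (hZ' d hd).2
  choose! t ht using hZ2
  have h1 := hmom X t hX3
  have h2 : (Z.card : ℝ) * (v / (2 * m)) ^ (2 * β) ≤ C * X * Real.log X ^ A := by
    calc (Z.card : ℝ) * (v / (2 * m)) ^ (2 * β) = ∑ _d ∈ Z, (v / (2 * m)) ^ (2 * β) := by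
          rw [Finset.sum_const, nsmul_eq_mul]
      _ ≤ ∑ d ∈ Z, f d (t d) ^ ((2 : ℝ) / N) / (2 + |t d|) ^ B := by
          refine Finset.sum_le_sum fun d hd => ?_
          have ht1 : (1 : ℝ) ≤ 2 + |t d| := by have := abs_nonneg (t d); linarith
          have ht0 : (0 : ℝ) < 2 + |t d| := by linarith
          rw [le_div_iff₀ (by positivity)]
          have h4 : (v / (2 * m)) ^ (2 * β) * (2 + |t d|) ^ B ≤
              ((|(d : ℝ)| ^ N) ^ β * (2 + |t d|) ^ (B * N)) ^ ((2 : ℝ) / N) := by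
            rw [Real.mul_rpow (by positivity) (by positivity)]
            have e1 : ((|(d : ℝ)| ^ N) ^ β) ^ ((2 : ℝ) / N) = |(d : ℝ)| ^ (2 * β) := by
              rw [← Real.rpow_natCast |(d : ℝ)| N, ← Real.rpow_mul (abs_nonneg _),
                ← Real.rpow_mul (abs_nonneg _)]
              congr 1
              field_simp
            have e2 : ((2 + |t d|) ^ (B * N)) ^ ((2 : ℝ) / N) = (2 + |t d|) ^ (2 * B) := by
              rw [← Real.rpow_natCast (2 + |t d|) (B * N), ← Real.rpow_mul ht0.le,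
                ← Real.rpow_natCast]
              congr 1
              push_cast
              field_simp
            rw [e1, e2]
            refine mul_le_mul ?_ (pow_le_pow_right₀ ht1 (by omega)) (by positivity) (by positivity)
            exact Real.rpow_le_rpow (by positivity) (hZ' d hd).1 (by positivity)
          exact h4.trans (Real.rpow_le_rpow (by positivity) (ht d hd).le (by positivity))
      _ ≤ ∑ d ∈ sqf X, f d (t d) ^ ((2 : ℝ) / N) / (2 + |t d|) ^ B :=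
          Finset.sum_le_sum_of_subset_of_nonneg hZ fun d _ _ =>
            div_nonneg (Real.rpow_nonneg (hf _ _) _) (by positivity)
      _ ≤ _ := h1
  have h3 : C * X * Real.log X ^ A ≤ |C| * ((m : ℝ) + 3) ^ (1 + η) / ε ^ A * v ^ (1 + η) := by
    have hl1 := one_le_log hX3
    have h4 : Real.log X ^ A ≤ (X : ℝ) ^ η / ε ^ A := by
      calc Real.log X ^ A ≤ ((X : ℝ) ^ ε / ε) ^ A :=
            pow_le_pow_left₀ (by linarith) (Real.log_le_rpow_div (by linarith) hε0) A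
        _ = (X : ℝ) ^ (ε * A) / ε ^ A := by
            rw [div_pow, Real.rpow_mul_natCast (by linarith)]
        _ ≤ _ := by
            gcongr
    calc C * X * Real.log X ^ A ≤ |C| * X * ((X : ℝ) ^ η / ε ^ A) := by
          refine mul_le_mul (mul_le_mul_of_nonneg_right (le_abs_self _) (by linarith)) h4
            (by positivity) (by positivity)
      _ = |C| / ε ^ A * (X : ℝ) ^ (1 + η) := by
          rw [Real.rpow_add (by linarith), Real.rpow_one]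
          ring
      _ ≤ |C| / ε ^ A * (((m : ℝ) + 3) * v) ^ (1 + η) := by
          gcongr
      _ = _ := by
          rw [Real.mul_rpow (by positivity) hv0.le]
          ring
  have h5 : (0 : ℝ) < (v / (2 * m)) ^ (2 * β) := by positivity
  have h6 : (Z.card : ℝ) ≤ |C| * ((m : ℝ) + 3) ^ (1 + η) / ε ^ A * v ^ (1 + η) *
      (v / (2 * m)) ^ (-(2 * β)) := by
    rw [Real.rpow_neg (by positivity), ← div_eq_mul_inv, le_div_iff₀ h5]
    exact h2.trans h3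
  refine h6.trans (le_of_eq ?_)
  have h7 : v / (2 * m) = v * (1 / (2 * m)) := by ring
  rw [h7, Real.mul_rpow hv0.le (by positivity)]
  have h8 : v ^ θ = v ^ (1 + η) * v ^ (-(2 * β)) := by
    rw [← Real.rpow_add hv0]
    congr 1
    rw [hη]
    ring
  rw [h8]
  ring

theorem exists_m {α : ℝ} (h : α ≠ 0) : ∃ m : ℕ, 1 ≤ m ∧ |α| ≤ m ∧ 1 ≤ m * |α| := by
  obtain ⟨m, hm⟩ := exists_nat_ge (max |α| (1 / |α|))
  have h1 : (0 : ℝ) < |α| := abs_pos.2 h
  refine ⟨m + 1, by omega, ?_, ?_⟩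
  · push_cast
    linarith [(le_max_left |α| (1 / |α|)).trans hm]
  · push_cast
    have h2 := (le_max_right |α| (1 / |α|)).trans hm
    rw [div_le_iff₀ h1] at h2
    nlinarith

/-- **Hausdorff measure zero** -/
theorem exc_null (hN : 1 ≤ N) (hmom : ∀ (X : ℕ) (t : ℤ → ℝ), 3 ≤ X →
      ∑ d ∈ sqf X, f d (t d) ^ ((2 : ℝ) / N) / (2 + |t d|) ^ B ≤ C * X * Real.log X ^ A)
    (hf : ∀ d t, 0 ≤ f d t) {β θ s : ℝ} (hβ : 0 ≤ β) (hθ : 1 - 2 * β < θ) (hs : θ < s) (hs0 : 0 < s)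
    (u : ℕ → ℝ) (hu : ∀ k, 0 < u k) (hsum : Summable fun k => (u k) ^ (θ - s)) :
    μH[s] (Exc N f u β (B * N)) = 0 := by
  classical
  have hut : Tendsto u atTop atTop := by
    apply Pool.Agent.Q138.Met.tendsto_of_summable (a := s - θ) (by linarith) u hu
    refine hsum.congr fun k => ?_
    congr 1
    ring
  set Z : ℕ → ℕ → Finset ℤ := fun m k => (sqf (⌈(m : ℝ) * u k⌉₊ + 2)).filter fun d =>
    u k / (2 * m) ≤ |(d : ℝ)| ∧ ∃ t : ℝ, (|(d : ℝ)| ^ N) ^ β * (2 + |t|) ^ (B * N) < f d t with hZ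
  have hsub : Exc N f u β (B * N) ⊆ ⋃ m : ℕ, {α : ℝ | 1 ≤ m ∧ ∃ᶠ k in atTop, ⌊α * u k⌋ ∈ Z m k} := by
    rintro α ⟨hα, hfr⟩
    obtain ⟨m, hm1, hm2, hm3⟩ := exists_m hα
    refine mem_iUnion.2 ⟨m, hm1, ?_⟩
    have hev : ∀ᶠ k in atTop, 2 * (m : ℝ) ≤ u k := hut.eventually_ge_atTop _
    refine (hfr.and_eventually hev).mono ?_
    rintro k ⟨⟨h1, h2⟩, h3⟩
    obtain ⟨h4, h5⟩ := floor_size hm2 hm3 h3 hm1
    exact Finset.mem_filter.2 ⟨mem_sqf.2 ⟨h4, h1⟩, h5, h2⟩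
  refine measure_mono_null hsub (measure_iUnion_null fun m => ?_)
  by_cases hm : 1 ≤ m
  · obtain ⟨C', hC'⟩ := count hN hmom hf hβ hθ m hm
    refine measure_mono_null (t := {α : ℝ | ∃ᶠ k in atTop, ⌊α * u k⌋ ∈ Z m k}) (fun α h => h.2) ?_
    refine floor_null hs0 u hu hsum (Z m) (C := C') ?_
    filter_upwards [hut.eventually_ge_atTop 1] with k hk
    exact hC' (u k) (Z m k) hk (Finset.filter_subset _ _) fun d hd => (Finset.mem_filter.1 hd).2
  · convert measure_empty (μ := (μH[s] : Measure ℝ))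
    ext α
    simp [hm]

/-- the dimension, for sequences growing faster than every power -/
theorem exc_dim (hN : 1 ≤ N) (hmom : ∀ (X : ℕ) (t : ℤ → ℝ), 3 ≤ X →
      ∑ d ∈ sqf X, f d (t d) ^ ((2 : ℝ) / N) / (2 + |t d|) ^ B ≤ C * X * Real.log X ^ A)
    (hf : ∀ d t, 0 ≤ f d t) {β : ℝ} (hβ : 0 ≤ β) (u : ℕ → ℝ) (hu : ∀ k, 0 < u k)
    (hsup : ∀ a : ℝ, ∀ᶠ k : ℕ in atTop, (k : ℝ) ^ a ≤ u k) :
    dimH (Exc N f u β (B * N)) ≤ ENNReal.ofReal (1 - 2 * β) := by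
  have h1 : dimH (Exc N f u β (B * N)) ≤ ENNReal.ofReal (max (1 - 2 * β) 0) := by
    refine Pool.Agent.Q138.Met.dimH_le_of_null (le_max_right _ _) fun s hs => ?_
    have hs1 : 1 - 2 * β < s := (le_max_left _ _).trans_lt hs
    have hs0 : 0 < s := (le_max_right _ _).trans_lt hs
    refine exc_null hN hmom hf hβ (θ := ((1 - 2 * β) + s) / 2) (by linarith) (by linarith) hs0 u hu ?_
    have h2 := Pool.Agent.Q138.Met.summable_of_superpoly hsup
      (a := s - ((1 - 2 * β) + s) / 2) (by linarith) hu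
    refine h2.congr fun k => ?_
    congr 1
    ring
  refine h1.trans (le_of_eq ?_)
  rcases le_total (1 - 2 * β) 0 with h | h
  · rw [max_eq_right h, ENNReal.ofReal_zero, ENNReal.ofReal_of_nonpos h]
  · rw [max_eq_left h]

/-- almost all `α`, for sequences growing faster than every power -/
theorem ae_all (hN : 1 ≤ N) (hmom : ∀ (X : ℕ) (t : ℤ → ℝ), 3 ≤ X →
      ∑ d ∈ sqf X, f d (t d) ^ ((2 : ℝ) / N) / (2 + |t d|) ^ B ≤ C * X * Real.log X ^ A)
    (hf : ∀ d t, 0 ≤ f d t) (u : ℕ → ℝ) (hu : ∀ k, 0 < u k)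
    (hsup : ∀ a : ℝ, ∀ᶠ k : ℕ in atTop, (k : ℝ) ^ a ≤ u k) :
    ∀ᵐ α : ℝ, ∀ β : ℝ, 0 < β → ∀ᶠ k in atTop, Squarefree ⌊α * u k⌋ → ∀ t : ℝ,
      f ⌊α * u k⌋ t ≤ (|(⌊α * u k⌋ : ℝ)| ^ N) ^ β * (2 + |t|) ^ (B * N) := by
  have h1 : ∀ j : ℕ, ∀ᵐ α : ℝ, α ∉ Exc N f u (1 / ((j : ℝ) + 1)) (B * N) := by
    intro j
    have hj : (0 : ℝ) < 1 / ((j : ℝ) + 1) := by positivity
    have h2 := exc_null hN hmom hf hj.le (θ := 1 - 1 / ((j : ℝ) + 1)) (s := 1) (by linarith)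
      (by linarith) one_pos u hu (by
        refine (Pool.Agent.Q138.Met.summable_of_superpoly hsup hj hu).congr fun k => ?_
        congr 1
        ring)
    rw [hausdorffMeasure_real] at h2
    exact measure_eq_zero_iff_ae_notMem.1 h2
  have h0 : ∀ᵐ α : ℝ, α ≠ 0 := by
    rw [ae_iff]
    simp
  filter_upwards [ae_all_iff.2 h1, h0] with α hα hα0 β hβ
  obtain ⟨j, hj⟩ := exists_nat_one_div_lt hβ
  have h2 : ¬ ∃ᶠ k in atTop, Squarefree ⌊α * u k⌋ ∧ ∃ t : ℝ,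
    (|(⌊α * u k⌋ : ℝ)| ^ N) ^ (1 / ((j : ℝ) + 1)) * (2 + |t|) ^ (B * N) < f ⌊α * u k⌋ t :=
    fun h => hα j ⟨hα0, h⟩
  rw [not_frequently] at h2
  filter_upwards [h2] with k hk hsq t
  have h3 : ∀ t, f ⌊α * u k⌋ t ≤
      (|(⌊α * u k⌋ : ℝ)| ^ N) ^ (1 / ((j : ℝ) + 1)) * (2 + |t|) ^ (B * N) := by
    intro t
    by_contra hcon
    exact hk ⟨hsq, t, not_le.1 hcon⟩
  refine (h3 t).trans ?_
  have h4 : (1 : ℝ) ≤ |(⌊α * u k⌋ : ℝ)| := by
    have h5 : ⌊α * u k⌋ ≠ 0 := hsq.ne_zero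
    have h6 : 1 ≤ |⌊α * u k⌋| := Int.one_le_abs h5
    exact_mod_cast h6
  have h7 : (0 : ℝ) ≤ (2 + |t|) ^ (B * N) := by positivity
  refine mul_le_mul_of_nonneg_right ?_ h7
  exact Real.rpow_le_rpow_of_exponent_le (one_le_pow₀ h4) hj.le

/-- powers of logarithms for almost all `α`, for sequences growing at least like `exp (k ^ κ)` -/
theorem ae_log (hlog : ∀ k : ℕ, ∃ (C : ℝ) (k' : ℕ), ∀ (X : ℕ) (S : Finset ℤ), 3 ≤ X → S ⊆ sqf X →
      (∀ d ∈ S, ∃ t : ℝ, (Real.log X * (2 + |t|)) ^ k' < f d t) →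
      (S.card : ℝ) ≤ C * X / Real.log X ^ k) {κ : ℝ} (hκ : 0 < κ) :
    ∃ K : ℕ, ∀ u : ℕ → ℝ, (∀ k, 0 < u k) → (∀ᶠ k : ℕ in atTop, Real.exp ((k : ℝ) ^ κ) ≤ u k) →
      ∀ᵐ α : ℝ, ∀ᶠ k in atTop, Squarefree ⌊α * u k⌋ → ∀ t : ℝ,
        f ⌊α * u k⌋ t ≤ (Real.log |(⌊α * u k⌋ : ℝ)| * (2 + |t|)) ^ K := by
  classical
  obtain ⟨q, hq⟩ := exists_nat_ge (2 / κ)
  have hqκ : 2 ≤ κ * q := by
    rw [div_le_iff₀ hκ] at hq
    linarith
  obtain ⟨C, k', hC⟩ := hlog q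
  refine ⟨2 * k', fun u hu hexp => ?_⟩
  have hut : Tendsto u atTop atTop := by
    refine tendsto_atTop_mono' _ hexp ?_
    exact Real.tendsto_exp_atTop.comp ((tendsto_rpow_atTop hκ).comp tendsto_natCast_atTop_atTop)
  have hlt : Tendsto (fun k => Real.log (u k)) atTop atTop := Real.tendsto_log_atTop.comp hut
  set Z : ℕ → ℕ → Finset ℤ := fun m k => (sqf (⌈(m : ℝ) * u k⌉₊ + 2)).filter fun d =>
    ∃ t : ℝ, (Real.log ((⌈(m : ℝ) * u k⌉₊ + 2 : ℕ) : ℝ) * (2 + |t|)) ^ k' < f d t with hZ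
  have hae : ∀ m : ℕ, 1 ≤ m → ∀ᵐ α : ℝ, ∀ᶠ k in atTop, ⌊α * u k⌋ ∉ Z m k := by
    intro m hm
    have hm0 : (1 : ℝ) ≤ m := by exact_mod_cast hm
    have hg : Summable fun k : ℕ => |C| * ((m : ℝ) + 3) * (k : ℝ) ^ (-2 : ℝ) :=
      (Real.summable_nat_rpow.2 (by norm_num)).mul_left _
    refine floor_ae u hu (Z m) hg ?_
    filter_upwards [hut.eventually_ge_atTop 1, hexp, eventually_ge_atTop 1] with k hk1 hk2 hk3
    have hv0 := hu k
    have hk0 : (1 : ℝ) ≤ k := by exact_mod_cast hk3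
    set X : ℕ := ⌈(m : ℝ) * u k⌉₊ + 2 with hX
    have hX3 : 3 ≤ X := by
      have : 1 ≤ ⌈(m : ℝ) * u k⌉₊ := Nat.one_le_ceil_iff.2 (by positivity)
      omega
    have hXle : (X : ℝ) ≤ ((m : ℝ) + 3) * u k := by
      have h1 := (Nat.ceil_lt_add_one (a := (m : ℝ) * u k) (by positivity)).le
      rw [hX]
      push_cast
      nlinarith
    have huX : u k ≤ X := by
      have h1 := Nat.le_ceil ((m : ℝ) * u k)
      rw [hX]
      push_cast
      nlinarith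
    have h1 := hC X (Z m k) hX3 (Finset.filter_subset _ _) fun d hd => (Finset.mem_filter.1 hd).2
    have hl1 := one_le_log hX3
    have h2 : (k : ℝ) ^ κ ≤ Real.log X := by
      have h3 : (k : ℝ) ^ κ ≤ Real.log (u k) := (Real.le_log_iff_exp_le hv0).2 hk2
      exact h3.trans (Real.log_le_log hv0 huX)
    have h3 : (k : ℝ) ^ (2 : ℝ) ≤ Real.log X ^ q := by
      calc (k : ℝ) ^ (2 : ℝ) ≤ (k : ℝ) ^ (κ * q) := Real.rpow_le_rpow_of_exponent_le hk0 hqκ
        _ = ((k : ℝ) ^ κ) ^ q := Real.rpow_mul_natCast (by linarith) _ _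
        _ ≤ _ := pow_le_pow_left₀ (by positivity) h2 q
    have hk2' : (0 : ℝ) < (k : ℝ) ^ (2 : ℝ) := by positivity
    rw [div_le_iff₀ hv0]
    calc ((Z m k).card : ℝ) ≤ C * X / Real.log X ^ q := h1
      _ ≤ |C| * (((m : ℝ) + 3) * u k) / (k : ℝ) ^ (2 : ℝ) := by
          gcongr
          exact le_abs_self C
      _ = _ := by
          rw [Real.rpow_neg (by linarith)]
          field_simp
  have h0 : ∀ᵐ α : ℝ, α ≠ 0 := by
    rw [ae_iff]
    simp
  have hae' : ∀ᵐ α : ℝ, ∀ m : ℕ, 1 ≤ m → ∀ᶠ k in atTop, ⌊α * u k⌋ ∉ Z m k := by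
    rw [ae_all_iff]
    intro m
    by_cases hm : 1 ≤ m
    · filter_upwards [hae m hm] with α h _ using h
    · exact Eventually.of_forall fun α h => absurd h hm
  filter_upwards [hae', h0] with α hα hα0
  obtain ⟨m, hm1, hm2, hm3⟩ := exists_m hα0
  have hm0 : (1 : ℝ) ≤ m := by exact_mod_cast hm1
  filter_upwards [hα m hm1, hut.eventually_ge_atTop (2 * m),
    hut.eventually_ge_atTop (4 * m ^ 2 * (m + 3)), hut.eventually_ge_atTop 1,
    hut.eventually_ge_atTop (6 * m)] with k hk1 hk2 hk3 hk4 hk5 hsq t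
  obtain ⟨h4, h5⟩ := floor_size hm2 hm3 hk2 hm1
  set d : ℤ := ⌊α * u k⌋ with hd
  set X : ℕ := ⌈(m : ℝ) * u k⌉₊ + 2 with hX
  have hv0 := hu k
  have hX3 : 3 ≤ X := by
    have : 1 ≤ ⌈(m : ℝ) * u k⌉₊ := Nat.one_le_ceil_iff.2 (by positivity)
    omega
  have hXle : (X : ℝ) ≤ ((m : ℝ) + 3) * u k := by
    have h1 := (Nat.ceil_lt_add_one (a := (m : ℝ) * u k) (by positivity)).le
    rw [hX]
    push_cast
    nlinarith
  have h6 : ∀ t, f d t ≤ (Real.log X * (2 + |t|)) ^ k' := by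
    intro t
    by_contra hcon
    exact hk1 (Finset.mem_filter.2 ⟨mem_sqf.2 ⟨h4, hsq⟩, t, not_le.1 hcon⟩)
  refine (h6 t).trans ?_
  have hl1 := one_le_log hX3
  have h7 : (X : ℝ) ≤ |(d : ℝ)| ^ 2 := by
    calc (X : ℝ) ≤ ((m : ℝ) + 3) * u k := hXle
      _ ≤ (u k / (2 * m)) ^ 2 := by
          rw [div_pow, le_div_iff₀ (by positivity)]
          nlinarith
      _ ≤ |(d : ℝ)| ^ 2 := pow_le_pow_left₀ (by positivity) h5 2
  have h8 : (3 : ℝ) ≤ |(d : ℝ)| := by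
    refine le_trans ?_ h5
    rw [le_div_iff₀ (by positivity)]
    linarith
  have h9 : Real.log X ≤ 2 * Real.log |(d : ℝ)| := by
    have h10 := Real.log_le_log (by positivity) h7
    rwa [Real.log_pow, Nat.cast_ofNat] at h10
  have h10 : 1 ≤ Real.log |(d : ℝ)| := by
    rw [Real.le_log_iff_exp_le (by linarith)]
    exact Real.exp_one_lt_d9.le.trans (by linarith)
  have ht : (2 : ℝ) ≤ 2 + |t| := by have := abs_nonneg t; linarith
  rw [pow_mul]
  refine pow_le_pow_left₀ (by positivity) ?_ k'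
  calc Real.log X * (2 + |t|) ≤ 2 * Real.log |(d : ℝ)| * (2 + |t|) := by gcongr
    _ = 2 * (Real.log |(d : ℝ)| * (2 + |t|)) := by ring
    _ ≤ (Real.log |(d : ℝ)| * (2 + |t|)) * (Real.log |(d : ℝ)| * (2 + |t|)) := by
        refine mul_le_mul_of_nonneg_right ?_ (by positivity)
        nlinarith
    _ = _ := by ring

/-- almost all `α`, for every sequence tending to infinity -/
theorem ae_any (hN : 1 ≤ N) (hmom : ∀ (X : ℕ) (t : ℤ → ℝ), 3 ≤ X →
      ∑ d ∈ sqf X, f d (t d) ^ ((2 : ℝ) / N) / (2 + |t d|) ^ B ≤ C * X * Real.log X ^ A)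
    (hf : ∀ d t, 0 ≤ f d t) :
    ∃ K : ℕ, ∀ u : ℕ → ℝ, (∀ k, 0 < u k) → Tendsto u atTop atTop →
      ∀ᵐ α : ℝ, ∀ᶠ k : ℕ in atTop, Squarefree ⌊α * u k⌋ → ∀ t : ℝ,
        f ⌊α * u k⌋ t ≤ (k * Real.log |(⌊α * u k⌋ : ℝ)| * (2 + |t|)) ^ K := by
  classical
  have hN0 : (1 : ℝ) ≤ N := by exact_mod_cast hN
  set M : ℕ := A + B + 2 with hM
  refine ⟨2 * (N * M), fun u hu hut => ?_⟩
  set Z : ℕ → ℕ → Finset ℤ := fun m k => (sqf (⌈(m : ℝ) * u k⌉₊ + 2)).filter fun d =>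
    ∃ t : ℝ, (k * Real.log ((⌈(m : ℝ) * u k⌉₊ + 2 : ℕ) : ℝ) * (2 + |t|)) ^ (N * M) < f d t with hZ
  have hae : ∀ m : ℕ, 1 ≤ m → ∀ᵐ α : ℝ, ∀ᶠ k in atTop, ⌊α * u k⌋ ∉ Z m k := by
    intro m hm
    have hm0 : (1 : ℝ) ≤ m := by exact_mod_cast hm
    have hg : Summable fun k : ℕ => |C| * ((m : ℝ) + 3) * (k : ℝ) ^ (-2 : ℝ) :=
      (Real.summable_nat_rpow.2 (by norm_num)).mul_left _
    refine floor_ae u hu (Z m) hg ?_
    filter_upwards [hut.eventually_ge_atTop 1, eventually_ge_atTop 1] with k hk1 hk3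
    have hv0 := hu k
    have hk0 : (1 : ℝ) ≤ k := by exact_mod_cast hk3
    set X : ℕ := ⌈(m : ℝ) * u k⌉₊ + 2 with hX
    have hX3 : 3 ≤ X := by
      have : 1 ≤ ⌈(m : ℝ) * u k⌉₊ := Nat.one_le_ceil_iff.2 (by positivity)
      omega
    have hXle : (X : ℝ) ≤ ((m : ℝ) + 3) * u k := by
      have h1 := (Nat.ceil_lt_add_one (a := (m : ℝ) * u k) (by positivity)).le
      rw [hX]
      push_cast
      nlinarith
    have hl1 := one_le_log hX3
    have hZ2 : ∀ d ∈ Z m k, ∃ t : ℝ, (k * Real.log (X : ℝ) * (2 + |t|)) ^ (N * M) < f d t :=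
      fun d hd => (Finset.mem_filter.1 hd).2
    choose! t ht using hZ2
    have h1 := hmom X t hX3
    have h2 : ((Z m k).card : ℝ) * (k ^ 2 * Real.log X ^ A) ≤ C * X * Real.log X ^ A := by
      calc ((Z m k).card : ℝ) * (k ^ 2 * Real.log X ^ A) =
            ∑ _d ∈ Z m k, ((k : ℝ) ^ 2 * Real.log X ^ A) := by
            rw [Finset.sum_const, nsmul_eq_mul]
        _ ≤ ∑ d ∈ Z m k, f d (t d) ^ ((2 : ℝ) / N) / (2 + |t d|) ^ B := by
            refine Finset.sum_le_sum fun d hd => ?_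
            have ht1 : (1 : ℝ) ≤ 2 + |t d| := by have := abs_nonneg (t d); linarith
            have ht0 : (0 : ℝ) < 2 + |t d| := by linarith
            rw [le_div_iff₀ (by positivity)]
            have hk0' : (0 : ℝ) ≤ k * Real.log (X : ℝ) * (2 + |t d|) := by positivity
            have e1 : ((k * Real.log (X : ℝ) * (2 + |t d|)) ^ (N * M)) ^ ((2 : ℝ) / N) =
                (k * Real.log (X : ℝ) * (2 + |t d|)) ^ (2 * M) := by
              rw [← Real.rpow_natCast (k * Real.log (X : ℝ) * (2 + |t d|)) (N * M),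
                ← Real.rpow_mul hk0', ← Real.rpow_natCast]
              congr 1
              push_cast
              field_simp
            have h4 : (k : ℝ) ^ 2 * Real.log X ^ A * (2 + |t d|) ^ B ≤
                (k * Real.log (X : ℝ) * (2 + |t d|)) ^ (2 * M) := by
              rw [mul_pow, mul_pow]
              refine mul_le_mul (mul_le_mul ?_ ?_ (by positivity) (by positivity)) ?_
                (by positivity) (by positivity)
              · exact pow_le_pow_right₀ hk0 (by omega)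
              · exact pow_le_pow_right₀ hl1 (by omega)
              · exact pow_le_pow_right₀ ht1 (by omega)
            rw [← e1] at h4
            exact h4.trans (Real.rpow_le_rpow (by positivity) (ht d hd).le (by positivity))
        _ ≤ ∑ d ∈ sqf X, f d (t d) ^ ((2 : ℝ) / N) / (2 + |t d|) ^ B :=
            Finset.sum_le_sum_of_subset_of_nonneg (Finset.filter_subset _ _) fun d _ _ =>
              div_nonneg (Real.rpow_nonneg (hf _ _) _) (by positivity)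
        _ ≤ _ := h1
    have h3 : ((Z m k).card : ℝ) * k ^ 2 ≤ C * X := by
      have h5 : (0 : ℝ) < Real.log X ^ A := by positivity
      refine le_of_mul_le_mul_right ?_ h5
      calc _ = ((Z m k).card : ℝ) * (k ^ 2 * Real.log X ^ A) := by ring
        _ ≤ _ := h2
    rw [div_le_iff₀ hv0]
    have h6 : ((Z m k).card : ℝ) ≤ C * X / (k : ℝ) ^ 2 := by
      rw [le_div_iff₀ (by positivity)]
      exact h3
    calc ((Z m k).card : ℝ) ≤ C * X / (k : ℝ) ^ 2 := h6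
      _ ≤ |C| * (((m : ℝ) + 3) * u k) / (k : ℝ) ^ 2 := by
          gcongr
          exact le_abs_self C
      _ = _ := by
          rw [Real.rpow_neg (by linarith), Real.rpow_two]
          field_simp
  have h0 : ∀ᵐ α : ℝ, α ≠ 0 := by
    rw [ae_iff]
    simp
  have hae' : ∀ᵐ α : ℝ, ∀ m : ℕ, 1 ≤ m → ∀ᶠ k in atTop, ⌊α * u k⌋ ∉ Z m k := by
    rw [ae_all_iff]
    intro m
    by_cases hm : 1 ≤ m
    · filter_upwards [hae m hm] with α h _ using h
    · exact Eventually.of_forall fun α h => absurd h hm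
  filter_upwards [hae', h0] with α hα hα0
  obtain ⟨m, hm1, hm2, hm3⟩ := exists_m hα0
  have hm0 : (1 : ℝ) ≤ m := by exact_mod_cast hm1
  filter_upwards [hα m hm1, hut.eventually_ge_atTop (2 * m),
    hut.eventually_ge_atTop (4 * m ^ 2 * (m + 3)), hut.eventually_ge_atTop 1,
    hut.eventually_ge_atTop (6 * m), eventually_ge_atTop 1] with k hk1 hk2 hk3 hk4 hk5 hk6 hsq t
  obtain ⟨h4, h5⟩ := floor_size hm2 hm3 hk2 hm1
  have hk0 : (1 : ℝ) ≤ k := by exact_mod_cast hk6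
  set d : ℤ := ⌊α * u k⌋ with hd
  set X : ℕ := ⌈(m : ℝ) * u k⌉₊ + 2 with hX
  have hv0 := hu k
  have hX3 : 3 ≤ X := by
    have : 1 ≤ ⌈(m : ℝ) * u k⌉₊ := Nat.one_le_ceil_iff.2 (by positivity)
    omega
  have hXle : (X : ℝ) ≤ ((m : ℝ) + 3) * u k := by
    have h1 := (Nat.ceil_lt_add_one (a := (m : ℝ) * u k) (by positivity)).le
    rw [hX]
    push_cast
    nlinarith
  have h6 : ∀ t, f d t ≤ (k * Real.log X * (2 + |t|)) ^ (N * M) := by
    intro t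
    by_contra hcon
    exact hk1 (Finset.mem_filter.2 ⟨mem_sqf.2 ⟨h4, hsq⟩, t, not_le.1 hcon⟩)
  refine (h6 t).trans ?_
  have hl1 := one_le_log hX3
  have h7 : (X : ℝ) ≤ |(d : ℝ)| ^ 2 := by
    calc (X : ℝ) ≤ ((m : ℝ) + 3) * u k := hXle
      _ ≤ (u k / (2 * m)) ^ 2 := by
          rw [div_pow, le_div_iff₀ (by positivity)]
          nlinarith
      _ ≤ |(d : ℝ)| ^ 2 := pow_le_pow_left₀ (by positivity) h5 2
  have h8 : (3 : ℝ) ≤ |(d : ℝ)| := by
    refine le_trans ?_ h5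
    rw [le_div_iff₀ (by positivity)]
    linarith
  have h9 : Real.log X ≤ 2 * Real.log |(d : ℝ)| := by
    have h10 := Real.log_le_log (by positivity) h7
    rwa [Real.log_pow, Nat.cast_ofNat] at h10
  have h10 : 1 ≤ Real.log |(d : ℝ)| := by
    rw [Real.le_log_iff_exp_le (by linarith)]
    exact Real.exp_one_lt_d9.le.trans (by linarith)
  have ht : (2 : ℝ) ≤ 2 + |t| := by have := abs_nonneg t; linarith
  have hkl : 1 ≤ k * Real.log |(d : ℝ)| := by nlinarith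
  rw [pow_mul _ 2 (N * M)]
  refine pow_le_pow_left₀ (a := (k : ℝ) * Real.log X * (2 + |t|)) (by positivity) ?_ _
  calc k * Real.log X * (2 + |t|) ≤ k * (2 * Real.log |(d : ℝ)|) * (2 + |t|) := by gcongr
    _ = 2 * (k * Real.log |(d : ℝ)| * (2 + |t|)) := by ring
    _ ≤ (k * Real.log |(d : ℝ)| * (2 + |t|)) * (k * Real.log |(d : ℝ)| * (2 + |t|)) := by
        refine mul_le_mul_of_nonneg_right ?_ (by positivity)
        nlinarith
    _ = _ := by ring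

end Pool.Agent.Q1.LF
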